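import Pool.Agent.Helper53.Comp.GoalsP

/-! Packet P7: the volume of a lifted simplex. -/

namespace Mono

namespace Comp

open Finset

variable {n k : ℕ}

namespace P7

/-- An injective homomorphism with saturated image preserves the index. -/
theorem idx_image (f : (Fin k → ℤ) →+ (Fin n → ℤ)) (hf : Function.Injective f)
    (hp : ∀ (y : Fin n → ℤ) (m : ℤ), m ≠ 0 → m • y ∈ f.range → y ∈ f.range)
    (B : Set (Fin k → ℤ)) : idx (f '' B) = idx B := by
  have h1 : AddSubgroup.closure (f '' B) = (AddSubgroup.closure B).map f :=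
    (AddMonoidHom.map_closure f B).symm
  have h2 : sat (f '' B) = (sat B).map f := by
    ext y
    constructor
    · rintro ⟨m, hm, hy⟩
      rw [h1] at hy
      have hy' : m • y ∈ f.range := by
        obtain ⟨x, -, hx⟩ := hy
        exact ⟨x, hx⟩
      obtain ⟨x, rfl⟩ := hp y m hm hy'
      refine ⟨x, ⟨m, hm, ?_⟩, rfl⟩
      obtain ⟨z, hz, hz2⟩ := hy
      have : z = m • x := hf (by rw [map_zsmul]; exact hz2)
      rw [← this]
      exact hz
    · rintro ⟨x, ⟨m, hm, hx⟩, rfl⟩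
      refine ⟨m, hm, ?_⟩
      rw [h1]
      exact ⟨m • x, hx, by rw [map_zsmul]⟩
  unfold idx
  rw [h1, h2]
  exact AddSubgroup.relIndex_map_map_of_injective _ _ hf

/-- The primitive part of the lifting map. -/
def emb (blk : Fin n → Fin k) (N : Fin n → ℕ) : (Fin k → ℤ) →+ (Fin n → ℤ) where
  toFun x := fun j => ((N j / blkGcd blk N (blk j) : ℕ) : ℤ) * x (blk j)
  map_zero' := by funext j; simp
  map_add' x y := by funext j; simp [mul_add]

theorem emb_apply (blk : Fin n → Fin k) (N : Fin n → ℕ) (x : Fin k → ℤ) (j : Fin n) :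
    emb blk N x j = ((N j / blkGcd blk N (blk j) : ℕ) : ℤ) * x (blk j) := rfl

theorem gcd_dvd (blk : Fin n → Fin k) (N : Fin n → ℕ) (j : Fin n) :
    blkGcd blk N (blk j) ∣ N j := by
  unfold blkGcd
  exact Finset.gcd_dvd (by simp)

theorem quot_pos (blk : Fin n → Fin k) (N : Fin n → ℕ) (hN : ∀ j, 0 < N j) (j : Fin n) :
    0 < N j / blkGcd blk N (blk j) :=
  Nat.div_pos (Nat.le_of_dvd (hN j) (gcd_dvd blk N j))
    (Nat.pos_of_dvd_of_pos (gcd_dvd blk N j) (hN j))

theorem emb_injective (blk : Fin n → Fin k) (N : Fin n → ℕ) (hb : Function.Surjective blk)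
    (hN : ∀ j, 0 < N j) : Function.Injective (emb blk N) := by
  intro x y h
  funext i
  obtain ⟨j, rfl⟩ := hb i
  have h1 := congrFun h j
  rw [emb_apply, emb_apply] at h1
  have h2 := quot_pos blk N hN j
  exact mul_left_cancel₀ (by exact_mod_cast h2.ne') h1

theorem emb_prim (blk : Fin n → Fin k) (N : Fin n → ℕ) (hb : Function.Surjective blk)
    (hN : ∀ j, 0 < N j) (y : Fin n → ℤ) (m : ℤ) (hm : m ≠ 0) (hy : m • y ∈ (emb blk N).range) :
    y ∈ (emb blk N).range := by
  obtain ⟨x, hx⟩ := hy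
  have hd : ∀ i, m ∣ x i := by
    intro i
    obtain ⟨j₀, hj₀⟩ := hb i
    have h1 : ∀ j ∈ univ.filter (fun j => blk j = i),
        m.natAbs ∣ (N j / blkGcd blk N i) * (x i).natAbs := by
      intro j hj
      have hji : blk j = i := (Finset.mem_filter.1 hj).2
      have h2 := congrFun hx j
      rw [emb_apply, hji] at h2
      have h3 : m ∣ ((N j / blkGcd blk N i : ℕ) : ℤ) * x i := by
        rw [h2]
        exact ⟨y j, by simp⟩
      have h4 := Int.natAbs_dvd_natAbs.2 h3
      rwa [Int.natAbs_mul, Int.natAbs_natCast] at h4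
    have h5 := Finset.dvd_gcd h1
    rw [Finset.gcd_mul_right] at h5
    have h6 : (univ.filter (fun j => blk j = i)).gcd (fun j => N j / blkGcd blk N i) = 1 := by
      unfold blkGcd
      exact Finset.gcd_div_eq_one (i := j₀) (by simp [hj₀]) (hN j₀).ne'
    rw [h6] at h5
    simp only [one_mul, normalize_eq] at h5
    exact Int.natAbs_dvd_natAbs.1 h5
  choose x' hx' using hd
  refine ⟨x', ?_⟩
  funext j
  have h1 := congrFun hx j
  rw [emb_apply, hx'] at h1
  rw [emb_apply]
  simp only [Pi.smul_apply, smul_eq_mul] at h1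
  apply mul_left_cancel₀ hm
  rw [← h1]; ring

end P7

theorem liftVol : LiftVol := by
  intro n k blk N hb hN τ
  have h1 : ∀ u : Fin k → ℤ,
      lift blk N u = P7.emb blk N (fun i => (blkGcd blk N i : ℤ) * u i) := by
    intro u
    funext j
    rw [P7.emb_apply]
    unfold lift
    rw [← mul_assoc]
    congr 1
    have := Nat.div_mul_cancel (P7.gcd_dvd blk N j)
    exact_mod_cast this.symm
  unfold vol
  rw [← P7.idx_image (P7.emb blk N) (P7.emb_injective blk N hb hN) (P7.emb_prim blk N hb hN)]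
  congr 1
  ext x
  simp only [Finset.mem_image, Set.mem_image]
  constructor
  · rintro ⟨_, ⟨u, hu, rfl⟩, _, ⟨v, hv, rfl⟩, rfl⟩
    refine ⟨_, ⟨_, ⟨u, hu, rfl⟩, _, ⟨v, hv, rfl⟩, rfl⟩, ?_⟩
    rw [map_sub, ← h1, ← h1]
  · rintro ⟨_, ⟨_, ⟨u, hu, rfl⟩, _, ⟨v, hv, rfl⟩, rfl⟩, rfl⟩
    refine ⟨_, ⟨u, hu, rfl⟩, _, ⟨v, hv, rfl⟩, ?_⟩
    rw [map_sub, ← h1, ← h1]

end Comp

end Mono
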